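import Pool.Agent.H.MP_4f19f9_lc.helper41.HB

/-!
# MP_4f19f9_lc, helper41/EX: the graphs of the words whose distance is divisible by a prime
-/

set_option autoImplicit false

namespace H41SC

open Finset Pool.Agent.SC

/-- The number of assigned places of a gappy assignment. -/
def sz {s : ℕ} (g : Fin s → Option Bool) : ℕ := (univ.filter fun i => g i ≠ none).card

/-- The gappy assignment g is compatible with the word x. -/
def Cmp {s : ℕ} (g : Fin s → Option Bool) (x : Fin s → Bool) : Prop := ∀ i c, g i = some c → x i = c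

/-- The sum over the gappy assignments which are compatible with x and with the complement of y. -/
theorem sum_cmp {s : ℕ} {R : Type*} [AddCommMonoid R] (F : ℕ → R) (x y : Fin s → Bool)
    [DecidablePred fun g : Fin s → Option Bool => Cmp g x ∧ Cmp g fun i => !y i] :
    ∑ g ∈ univ.filter (fun g : Fin s → Option Bool => Cmp g x ∧ Cmp g fun i => !y i), F (sz g) =
      ∑ J ∈ (univ.filter fun i => x i ≠ y i).powerset, F J.card := by
  classical
  refine Finset.sum_nbij' (fun g => univ.filter fun i => g i ≠ none)
    (fun J i => if i ∈ J then some (x i) else none) ?_ ?_ ?_ ?_ ?_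
  · intro g hg
    rw [Finset.mem_filter] at hg
    rw [Finset.mem_powerset]
    intro i hi
    rw [Finset.mem_filter] at hi ⊢
    refine ⟨Finset.mem_univ _, ?_⟩
    obtain ⟨c, hc⟩ := Option.ne_none_iff_exists'.1 hi.2
    have h1 := hg.2.1 i c hc
    have h2 := hg.2.2 i c hc
    rw [h1]
    intro h3
    have h2' : (!y i) = c := h2
    rw [← h3] at h2'
    simp at h2'
  · intro J hJ
    rw [Finset.mem_powerset] at hJ
    rw [Finset.mem_filter]
    refine ⟨Finset.mem_univ _, ?_, ?_⟩
    · intro i c hc
      dsimp only at hc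
      by_cases h : i ∈ J
      · rw [if_pos h] at hc
        exact Option.some_injective _ hc
      · rw [if_neg h] at hc
        exact absurd hc (by simp)
    · intro i c hc
      dsimp only at hc
      by_cases h : i ∈ J
      · rw [if_pos h] at hc
        have h1 := hJ h
        rw [Finset.mem_filter] at h1
        have h2 : x i = c := Option.some_injective _ hc
        rw [← h2]
        have h3 := h1.2
        dsimp only
        cases hx : x i <;> cases hy : y i <;> simp_all
      · rw [if_neg h] at hc
        exact absurd hc (by simp)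
  · intro g hg
    rw [Finset.mem_filter] at hg
    funext i
    by_cases h : g i = none
    · simp [h]
    · obtain ⟨c, hc⟩ := Option.ne_none_iff_exists'.1 h
      have h1 := hg.2.1 i c hc
      simp [hc, h1]
  · intro J _
    ext i
    simp
  · intro g _
    rfl

/-- The binomial sum. -/
theorem sum_choose (d m : ℕ) :
    ∑ j ∈ range (d + 1), d.choose j * m.choose j = (d + m).choose m := by
  rw [Nat.add_choose_eq, Finset.Nat.sum_antidiagonal_eq_sum_range_succ_mk]
  have h1 : ∑ j ∈ range (m + 1), d.choose j * m.choose (m - j) =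
      ∑ j ∈ range (m + 1), d.choose j * m.choose j := by
    refine Finset.sum_congr rfl fun j hj => ?_
    rw [Nat.choose_symm (Nat.lt_succ_iff.1 (Finset.mem_range.1 hj))]
  show _ = ∑ j ∈ range (m + 1), d.choose j * m.choose (m - j)
  rw [h1]
  rcases le_total d m with h | h
  · refine Finset.sum_subset (fun j hj => ?_) fun j _ hj => ?_
    · rw [Finset.mem_range] at hj ⊢
      omega
    · rw [Finset.mem_range] at hj
      rw [Nat.choose_eq_zero_of_lt (by omega : d < j), zero_mul]
  · refine (Finset.sum_subset (fun j hj => ?_) fun j _ hj => ?_).symm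
    · rw [Finset.mem_range] at hj ⊢
      omega
    · rw [Finset.mem_range] at hj
      rw [Nat.choose_eq_zero_of_lt (by omega : m < j), mul_zero]

/-- The theorem of Lucas. -/
theorem choose_zmod (q : ℕ) [hq : Fact q.Prime] (d : ℕ) :
    (((d + (q - 1)).choose (q - 1) : ℕ) : ZMod q) = if q ∣ d then 1 else 0 := by
  have hq2 := hq.out.two_le
  have h1 := Choose.choose_modEq_choose_mod_mul_choose_div_nat (n := d + (q - 1)) (k := q - 1)
    (p := q)
  rw [← ZMod.natCast_eq_natCast_iff] at h1
  rw [h1, Nat.mod_eq_of_lt (by omega : q - 1 < q), Nat.div_eq_of_lt (by omega : q - 1 < q),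
    Nat.choose_zero_right, mul_one]
  by_cases h : q ∣ d
  · obtain ⟨e, rfl⟩ := h
    rw [if_pos (Dvd.intro e rfl), Nat.mul_add_mod, Nat.mod_eq_of_lt (by omega : q - 1 < q),
      Nat.choose_self, Nat.cast_one]
  · rw [if_neg h]
    have h2 : (d + (q - 1)) % q < q - 1 := by
      have h3 : (d + (q - 1)) % q < q := Nat.mod_lt _ (by omega)
      have h4 : (d + (q - 1)) % q ≠ q - 1 := by
        intro h5
        apply h
        have h6 : (d + (q - 1)) % q = (0 + (q - 1)) % q := by
          rw [h5, Nat.zero_add, Nat.mod_eq_of_lt (by omega : q - 1 < q)]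
        have h7 : d ≡ 0 [MOD q] := Nat.ModEq.add_right_cancel' (q - 1) h6
        exact (Nat.modEq_zero_iff_dvd).1 h7
      omega
    rw [Nat.choose_eq_zero_of_lt h2, Nat.cast_zero]

/-- Words of length s; two distinct words are adjacent when q divides their distance. -/
def Gq (s q : ℕ) : SimpleGraph (Fin s → Bool) where
  Adj x y := x ≠ y ∧ q ∣ hammingDist x y
  symm := ⟨fun x y h => ⟨h.1.symm, by rw [hammingDist_comm]; exact h.2⟩⟩
  loopless := ⟨fun _ h => h.1 rfl⟩

/-- The gappy assignments with at most m places. -/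
def PA (s m : ℕ) : Finset (Fin s → Option Bool) := univ.filter fun g => sz g ≤ m

theorem theta_Gq (s q : ℕ) [hq : Fact q.Prime] : theta (Gq s q) ≤ (PA s (q - 1)).card := by
  classical
  have main : ∀ x y : Fin s → Bool, ∑ g : PA s (q - 1),
      (((q - 1).choose (sz g.1) : ℕ) : ZMod q) * (if Cmp g.1 x then 1 else 0) *
        (if Cmp g.1 (fun i => !y i) then 1 else 0) = if q ∣ hammingDist x y then 1 else 0 := by
    intro x y
    rw [Finset.sum_coe_sort (PA s (q - 1)) (fun g => (((q - 1).choose (sz g) : ℕ) : ZMod q) *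
      (if Cmp g x then 1 else 0) * (if Cmp g (fun i => !y i) then 1 else 0))]
    have e1 : ∑ g ∈ PA s (q - 1), (((q - 1).choose (sz g) : ℕ) : ZMod q) *
        (if Cmp g x then 1 else 0) * (if Cmp g (fun i => !y i) then 1 else 0) =
        ∑ g : Fin s → Option Bool, (((q - 1).choose (sz g) : ℕ) : ZMod q) *
        (if Cmp g x then 1 else 0) * (if Cmp g (fun i => !y i) then 1 else 0) := by
      refine Finset.sum_subset (Finset.subset_univ _) fun g _ hg => ?_
      rw [PA, Finset.mem_filter, not_and] at hg
      have h1 := hg (Finset.mem_univ _)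
      rw [Nat.choose_eq_zero_of_lt (by omega : q - 1 < sz g), Nat.cast_zero, zero_mul, zero_mul]
    have e2 : ∑ g : Fin s → Option Bool, (((q - 1).choose (sz g) : ℕ) : ZMod q) *
        (if Cmp g x then 1 else 0) * (if Cmp g (fun i => !y i) then 1 else 0) =
        ∑ g ∈ univ.filter (fun g : Fin s → Option Bool => Cmp g x ∧ Cmp g fun i => !y i),
          (((q - 1).choose (sz g) : ℕ) : ZMod q) := by
      rw [Finset.sum_filter]
      refine Finset.sum_congr rfl fun g _ => ?_
      by_cases h1 : Cmp g x <;> by_cases h2 : Cmp g (fun i => !y i) <;> simp [h1, h2]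
    rw [e1, e2, sum_cmp (fun j => (((q - 1).choose j : ℕ) : ZMod q)) x y,
      Finset.sum_powerset_apply_card (fun j => (((q - 1).choose j : ℕ) : ZMod q)),
      ← choose_zmod, ← sum_choose]
    push_cast
    refine Finset.sum_congr rfl fun j _ => ?_
    rw [nsmul_eq_mul]
    rfl
  have h := theta_le_of_rep (Gq s q) (K := ZMod q) (ι := PA s (q - 1))
    (fun x g => (((q - 1).choose (sz g.1) : ℕ) : ZMod q) * (if Cmp g.1 x then 1 else 0))
    (fun y g => if Cmp g.1 (fun i => !y i) then 1 else 0) ?_ ?_
  · rwa [Fintype.card_coe] at h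
  · intro x
    rw [main x x, hammingDist_self, if_pos (dvd_zero q)]
    exact one_ne_zero
  · intro x y hxy
    rw [main x y, if_neg]
    intro h1
    rw [SimpleGraph.compl_adj] at hxy
    exact hxy.2 ⟨hxy.1, h1⟩

end H41SC
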