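import Pool.Agent.SC.Basic

/-!
# MP_4f19f9_lc, helper41/HB: the bound of Haemers for the Shannon capacity
-/

set_option autoImplicit false

namespace H41SC

open Pool.Agent.SC

/-- A family of vectors with nonzero diagonal products and with product zero at the pairs of
distinct nonadjacent vertices bounds the capacity by the dimension. -/
theorem theta_le_of_rep {V : Type*} [Finite V] (G : SimpleGraph V) {K ι : Type*} [Field K]
    [Fintype ι] (a b : V → ι → K) (h1 : ∀ x, ∑ k, a x k * b x k ≠ 0)
    (h2 : ∀ x y, Gᶜ.Adj x y → ∑ k, a x k * b y k = 0) :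
    theta G ≤ Fintype.card ι := by
  classical
  refine theta_le G (Nat.cast_nonneg _) fun n => ?_
  obtain ⟨C, hC, hC2⟩ := exists_code (spow G (Fin (n + 1)))
  unfold al
  rw [← hC]
  have key : ∀ x y : Fin (n + 1) → V, ∑ j : Fin (n + 1) → ι,
      (∏ i, a (x i) (j i)) * (∏ i, b (y i) (j i)) = ∏ i, ∑ k, a (x i) k * b (y i) k := by
    intro x y
    rw [Finset.prod_univ_sum, Fintype.piFinset_univ]
    exact Finset.sum_congr rfl fun j _ => Finset.prod_mul_distrib.symm
  have hz : ∀ x y : C, y ≠ x →
      ∏ i, ∑ k, a (y.1 i) k * b (x.1 i) k = 0 := by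
    intro x y hxy
    have h3 := hC2 y.1 y.2 x.1 x.2 (fun e => hxy (Subtype.ext e))
    rw [sep_spow] at h3
    obtain ⟨i, hi⟩ := h3
    exact Finset.prod_eq_zero (Finset.mem_univ i) (h2 _ _ hi)
  have hli : LinearIndependent K
      (fun x : C => fun j : Fin (n + 1) → ι => ∏ i, a (x.1 i) (j i)) := by
    rw [Fintype.linearIndependent_iff]
    intro g hg x
    have h3 : ∑ j : Fin (n + 1) → ι,
        (∑ y : C, g y • fun j : Fin (n + 1) → ι => ∏ i, a (y.1 i) (j i)) j *
          ∏ i, b (x.1 i) (j i) = 0 := by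
      rw [hg]
      simp
    have h4 : ∑ j : Fin (n + 1) → ι,
        (∑ y : C, g y • fun j : Fin (n + 1) → ι => ∏ i, a (y.1 i) (j i)) j *
          ∏ i, b (x.1 i) (j i) = ∑ y : C, g y * ∏ i, ∑ k, a (y.1 i) k * b (x.1 i) k := by
      simp only [Finset.sum_apply, Pi.smul_apply, smul_eq_mul, Finset.sum_mul]
      rw [Finset.sum_comm]
      refine Finset.sum_congr rfl fun y _ => ?_
      rw [← key, Finset.mul_sum]
      exact Finset.sum_congr rfl fun j _ => mul_assoc _ _ _
    rw [h4, Finset.sum_eq_single x (fun y _ hy => by rw [hz x y hy, mul_zero])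
      (fun h => absurd (Finset.mem_univ x) h)] at h3
    rcases mul_eq_zero.1 h3 with h5 | h5
    · exact h5
    · exact absurd h5 (Finset.prod_ne_zero_iff.2 fun i _ => h1 _)
  have h5 := hli.fintype_card_le_finrank
  rw [Module.finrank_fintype_fun_eq_card, Fintype.card_coe, Fintype.card_pi] at h5
  rw [Finset.prod_const, Finset.card_univ, Fintype.card_fin] at h5
  exact_mod_cast h5

end H41SC
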